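import Pool.Agent.Helper90.QF.St

/-!
# Project QF (MP_04a253_al), module ORD: orders of solutions
-/

set_option autoImplicit false

namespace Pool.Agent.Helper24.QF

open Pool.Agent.Helper90.QF MvPolynomial

/-- Induction from below. -/
theorem ord_ind (f : ℤ → Polynomial ℂ) (J M : ℤ) (hJ : ∀ j < J, f j = 0)
    (h : ∀ j ≤ M, (∀ i < j, f i = 0) → f j = 0) : ∀ j ≤ M, f j = 0 := by
  have key : ∀ n : ℕ, ∀ j : ℤ, j < J + n → j ≤ M → f j = 0 := by
    intro n
    induction n with
    | zero => intro j hj _; exact hJ j (by simpa using hj)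
    | succ n ih =>
      intro j hj hM
      by_cases hj2 : j < J + n
      · exact ih j hj2 hM
      · exact h j hM fun i hi => ih i (by push_cast at hj; omega) (by omega)
  intro j hj
  exact key (j - J + 1).toNat j (by omega) hj

theorem ord_der (p : Polynomial ℂ) (b : ℂ) (hb : b ≠ 0)
    (h : Polynomial.derivative p = Polynomial.C b * p) : p = 0 := by
  by_contra hp
  have h1 := Polynomial.degree_derivative_lt hp
  rw [h, Polynomial.degree_C_mul hb] at h1
  exact lt_irrefl _ h1

theorem hORD (hUBA : StUBA) : StORD := by
  obtain ⟨hX, hC, hth, -, -, -, -, -, -, hbd, -, -, hadd⟩ := hUBA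
  refine ⟨?_, ?_, ?_⟩
  · intro σ κ k r0 r1 z hk hE hr0 hr1 hr1'
    have hstar : ∀ c j, Polynomial.C 2 * (Polynomial.derivative (co z c (j + 2)) -
        Polynomial.C (((j + 2 : ℤ) : ℂ) / 2) * co z c (j + 2) + Polynomial.C c * co z c (j + 2 + 2)) =
        Polynomial.C σ * co z c j + (Polynomial.C (-(k : ℂ)) * co z c (j + 2) +
          Polynomial.C κ * co z c (j + 2 + 2)) + (co r0 c j + co r1 c (j + 2)) := by
      intro c j
      have h1 := congrArg (fun w => co w c j) hE
      have e1 : ((2 : Polynomial ℂ) * Polynomial.X) • th z =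
          (Polynomial.C 2 : Polynomial ℂ) • ((Polynomial.X : Polynomial ℂ) • th z) := by
        rw [smul_smul]; rfl
      have e2 : (Polynomial.C σ - Polynomial.C (k : ℂ) * Polynomial.X +
          Polynomial.C κ * Polynomial.X ^ 2) • z = (Polynomial.C σ : Polynomial ℂ) • z +
          ((Polynomial.C (-(k : ℂ)) : Polynomial ℂ) • ((Polynomial.X : Polynomial ℂ) • z) +
          (Polynomial.C κ : Polynomial ℂ) • ((Polynomial.X : Polynomial ℂ) • ((Polynomial.X : Polynomial ℂ) • z))) := by
        rw [smul_smul, smul_smul, smul_smul, ← add_smul, ← add_smul]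
        congr 1
        rw [Polynomial.C_neg]
        ring
      rw [e1, e2, hC, hX, hth, hadd, hadd, hadd, hadd, hC, hC, hC, hX, hX, hX, hX] at h1
      exact h1
    intro c
    obtain ⟨J, hJ⟩ := hbd z c
    by_cases hc : 2 * c = κ
    · refine ord_ind (fun j => co z c j) J 0 hJ ?_
      intro j hj hlow
      have h1 := hstar c (j - 2)
      have e3 : j - 2 + 2 = j := by ring
      rw [e3, hlow (j - 2) (by omega), hr0 c (j - 2) (by omega)] at h1
      have h2 : co r1 c j = 0 := by
        rcases lt_or_eq_of_le hj with h | h
        · exact hr1 c j h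
        · rw [h]; exact hr1' c hc
      rw [h2, ← hc, Polynomial.C_mul] at h1
      have h3 : Polynomial.C 2 * (Polynomial.derivative (co z c j) -
          Polynomial.C (((j : ℂ) - k) / 2) * co z c j) = 0 := by
        have e4 : (Polynomial.C (((j : ℂ) - k) / 2) : Polynomial ℂ) =
            Polynomial.C ((j : ℂ) / 2) + Polynomial.C (1 / 2) * Polynomial.C (-(k : ℂ)) := by
          rw [← Polynomial.C_mul, ← Polynomial.C_add]; congr 1; ring
        have e5 : (Polynomial.C 2 : Polynomial ℂ) * Polynomial.C (1 / 2) = 1 := by
          rw [← Polynomial.C_mul, ← Polynomial.C_1]; congr 1; norm_num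
        rw [e4]
        linear_combination h1 - (Polynomial.C (-(k : ℂ)) * co z c j) * e5
      have h4 : Polynomial.derivative (co z c j) = Polynomial.C (((j : ℂ) - k) / 2) * co z c j := by
        rcases mul_eq_zero.1 h3 with h | h
        · exact absurd (Polynomial.C_eq_zero.1 h) two_ne_zero
        · exact sub_eq_zero.1 h
      refine ord_der _ _ ?_ h4
      have h5 : ((j : ℂ) - k) ≠ 0 := by
        rw [sub_ne_zero]
        intro h
        have h6 : (j : ℤ) = (k : ℤ) := by exact_mod_cast h
        omega
      exact div_ne_zero h5 two_ne_zero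
    · refine ord_ind (fun j => co z c j) J 0 hJ ?_
      intro j hj hlow
      have h1 := hstar c (j - 4)
      have e3 : j - 4 + 2 + 2 = j := by ring
      have e4 : j - 4 + 2 = j - 2 := by ring
      rw [e3, e4, hlow (j - 2) (by omega), hlow (j - 4) (by omega), hr0 c (j - 4) (by omega),
        hr1 c (j - 2) (by omega), Polynomial.derivative_zero] at h1
      have h2 : Polynomial.C (2 * c - κ) * co z c j = 0 := by
        rw [Polynomial.C_sub, Polynomial.C_mul]
        linear_combination h1
      rcases mul_eq_zero.1 h2 with h | h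
      · exact absurd (sub_eq_zero.1 (Polynomial.C_eq_zero.1 h)) hc
      · exact h
  · intro a z hE
    have hstar : ∀ c j, Polynomial.derivative (co z c j) - Polynomial.C ((j : ℂ) / 2) * co z c j +
        Polynomial.C c * co z c (j + 2) = Polynomial.C a * co z c (j + 2) := by
      intro c j
      have h1 := congrArg (fun w => co w c j) hE
      rw [hth, mul_smul, hC, hX] at h1
      exact h1
    refine ⟨?_, ?_⟩
    · intro c j hc
      obtain ⟨J, hJ⟩ := hbd z c
      refine ord_ind (fun j => co z c j) J j hJ ?_ j le_rfl
      intro j _ hlow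
      have h1 := hstar c (j - 2)
      have e3 : j - 2 + 2 = j := by ring
      rw [e3, hlow (j - 2) (by omega), Polynomial.derivative_zero] at h1
      have h2 : Polynomial.C (c - a) * co z c j = 0 := by
        rw [Polynomial.C_sub]
        linear_combination h1
      rcases mul_eq_zero.1 h2 with h | h
      · exact absurd (sub_eq_zero.1 (Polynomial.C_eq_zero.1 h)) hc
      · exact h
    · intro j hj
      have h1 := hstar a j
      refine ord_der _ ((j : ℂ) / 2) ?_ ?_
      · have : (j : ℂ) ≠ 0 := by
          have : j ≠ 0 := hj.ne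
          exact_mod_cast this
        exact div_ne_zero this two_ne_zero
      · linear_combination h1
  · intro α β r z hβ hE hr c
    obtain ⟨J, hJ⟩ := hbd z c
    have hstar : ∀ j, Polynomial.C α * co z c j + Polynomial.C (-β) * co z c (j + 2) = co r c j := by
      intro j
      have e2 : (Polynomial.C α - Polynomial.C β * Polynomial.X) • z = (Polynomial.C α : Polynomial ℂ) • z +
          (Polynomial.C (-β) : Polynomial ℂ) • ((Polynomial.X : Polynomial ℂ) • z) := by
        rw [smul_smul, ← add_smul]
        congr 1
        rw [Polynomial.C_neg]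
        ring
      have h1 := congrArg (fun w => co w c j) hE
      rw [e2, hadd, hC, hC, hX] at h1
      exact h1
    refine ord_ind (fun j => co z c j) J 0 hJ ?_
    intro j hj hlow
    have h1 := hstar (j - 2)
    have e3 : j - 2 + 2 = j := by ring
    rw [e3, hlow (j - 2) (by omega), hr c (j - 2) (by omega), mul_zero, zero_add] at h1
    rcases mul_eq_zero.1 h1 with h | h
    · exact absurd (neg_eq_zero.1 (Polynomial.C_eq_zero.1 h)) hβ
    · exact h

end Pool.Agent.Helper24.QF
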